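import Mathlib
import Pool.Agent.H434.J4
import Pool.Agent.H434.J7

/-!
MP_627a61_nt, Q1: sequences of rational points of a hyperbolic projective variety `X` which are, locally,
on holomorphic discs in `X`, for instance the values at the natural numbers of a holomorphic map from a
half plane to `X`, or the values at `ℕ ^ p` of a holomorphic map from a product of `p` half planes. If
no subvariety of small dimension contains all but finitely many of them, then their heights are large
infinitely often, with one constant for all sequences, all maps and all number fields.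

(According to Q1 there are no such sequences at all. For `X = ℙ²` the theorem is false: there are entire
maps `f` with `f(k) ∈ ℙ²(ℚ)` and `h(f(k)) ≤ log k` for all `k` such that no curve contains the points
`f(k)`, `k ≥ n`, for any `n`.)

Proof. Let `k 1 < k 2 < …` be the indices for which the monomials of degree `d` in `m + 1` coordinates
of `x (k j)` are not a linear combination of those at the earlier points. The determinant of the monomials at
`x (k 1), …, x (k D)` is a form in each of the points; as a form in the `j`-th point it vanishes at all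
earlier points of the sequence, hence at many points of the disc. Since `X` is hyperbolic, the discs are
equicontinuous (Brody), and it follows with Schwarz' lemma and Hadamard's three circles theorem, applied
in a bounded number of charts, that it is small at the `j`-th point; one can do this for all `j`, one
after the other. Finally one uses the product formula.
-/

set_option autoImplicit false

open MvPolynomial Filter
open scoped LinearAlgebra.Projectivization

namespace Pool.Agent.Results.MP_627a61_nt.PointsOnDiscs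

/-- `f` is a holomorphic map from the open set `U` to projective `N`-space: near every point of `U` it
is given by a nowhere vanishing vector of analytic functions. -/
def Holo {E : Type} [NormedAddCommGroup E] [NormedSpace ℂ E] {N : ℕ} (U : Set E)
    (f : E → ℙ ℂ (Fin (N + 1) → ℂ)) : Prop :=
  ∀ t ∈ U, ∃ (W : Set E) (g : E → Fin (N + 1) → ℂ), IsOpen W ∧ t ∈ W ∧ AnalyticOnNhd ℂ g W ∧
    ∀ t' ∈ W, ∃ h : g t' ≠ 0, f t' = Projectivization.mk ℂ (g t') h

/-- The projective algebraic set given by the forms in `F`. -/
def Zeros {N : ℕ} (F : Set (MvPolynomial (Fin (N + 1)) ℂ)) : Set (ℙ ℂ (Fin (N + 1) → ℂ)) :=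
  {P | ∀ G ∈ F, eval P.rep G = 0}

/-- All holomorphic maps from `ℂ` to `X` are constant. -/
def BrodyHyperbolic {N : ℕ} (X : Set (ℙ ℂ (Fin (N + 1) → ℂ))) : Prop :=
  ∀ g : ℂ → ℙ ℂ (Fin (N + 1) → ℂ), Holo Set.univ g → (∀ t, g t ∈ X) → ∀ t, g t = g 0

/-- There are a holomorphic map `φ` from the unit disc to `X`, a set `I` of at least `A` indices `l`
with `l < k` and points `w l` of the disc such that `|w l| ≤ r` and `φ (w l) = P l` for all `l` in `I`
and for `l = k`, and the points `w l`, `l` in `I`, are different. -/
def OnDisc {N : ℕ} (X : Set (ℙ ℂ (Fin (N + 1) → ℂ))) (r : ℝ) (P : ℕ → ℙ ℂ (Fin (N + 1) → ℂ)) (A : ℝ)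
    (k : ℕ) : Prop :=
  ∃ φ : ℂ → ℙ ℂ (Fin (N + 1) → ℂ), Holo (Metric.ball 0 1) φ ∧ (∀ z ∈ Metric.ball (0 : ℂ) 1, φ z ∈ X) ∧
    ∃ (I : Finset ℕ) (w : ℕ → ℂ), (∀ l ∈ I, l < k) ∧ A ≤ I.card ∧ Set.InjOn w I ∧
      ∀ l ∈ insert k I, ‖w l‖ ≤ r ∧ φ (w l) = P l

/-- No algebraic set of dimension smaller than `m` contains the points `x k` for all but finitely many
`k`: for every finite set `E` of indices some `m + 1` of the homogeneous coordinates satisfy no
nontrivial homogeneous equation at all the points `x k`, `k ∉ E`. -/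
def DimAtLeast {J L : Type} [Field L] {N : ℕ} (m : ℕ) (σ : L →+* ℂ) (x : J → Fin (N + 1) → L) : Prop :=
  ∀ E : Set J, E.Finite → ∃ i : Fin (m + 1) → Fin (N + 1),
    ∀ (Q : MvPolynomial (Fin (m + 1)) ℂ) (d : ℕ), Q.IsHomogeneous d → Q ≠ 0 →
      ∃ k, k ∉ E ∧ eval (fun l => σ (x k (i l))) Q ≠ 0

/-- Let `X` be a complex projective variety without nonconstant entire curves. `Height.logHeight x` is
the logarithmic Weil height, relative to `L`, of the point with the homogeneous coordinates `x`.

(1) Let `m θ > 1`, `δ > 0`, `r < 1`. There is `ε > 0` such that for all number fields `L` in `ℂ` and all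
sequences `x 0, x 1, …` of points over `L` the following holds. If for all large `k` the point `x k` is,
together with at least `δ k ^ θ` of the earlier points, on a holomorphic disc in `X`, at places with
absolute value at most `r`, and if no algebraic set of dimension smaller than `m` contains all but
finitely many of the points, then `h(x k) ≥ ε k ^ (θ - 1 / m)` for infinitely many `k`.

(2) Let `p < m`. There is `ε > 0` such that for all number fields `L` in `ℂ` and all holomorphic maps
`f` from the set of the `z` in `ℂ ^ p` with `Re z i > 0` for all `i` to `X` for which the `f (n)`, `n` a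
vector of positive integers, are points over `L`, with at most finitely many exceptions: if no
algebraic set of dimension smaller than `m` contains all but finitely many of the points `f(n)`, then
`h(f(n)) ≥ ε (max n i) ^ (1 - p / m)` for infinitely many `n`. (The index below is `n - (1, …, 1)`.) -/
theorem result {N : ℕ} (F : Set (MvPolynomial (Fin (N + 1)) ℂ))
    (hF : ∀ G ∈ F, ∃ e, G.IsHomogeneous e) (hX : BrodyHyperbolic (Zeros F)) (m : ℕ) :
    (∀ θ δ r : ℝ, 1 < m * θ → 0 < δ → r < 1 → ∃ ε : ℝ, 0 < ε ∧
      ∀ (L : Type) [Field L] [NumberField L] (σ : L →+* ℂ) (x : ℕ → Fin (N + 1) → L)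
        (hx : ∀ k, (fun j => σ (x k j)) ≠ 0),
        (∀ᶠ k : ℕ in atTop,
          OnDisc (Zeros F) r (fun l => Projectivization.mk ℂ _ (hx l)) (δ * (k : ℝ) ^ θ) k) →
        DimAtLeast m σ x →
        ∃ᶠ k : ℕ in atTop, ε * (k : ℝ) ^ (θ - 1 / m) ≤ Height.logHeight (x k)) ∧
    ∀ p : ℕ, p < m → ∃ ε : ℝ, 0 < ε ∧
      ∀ (L : Type) [Field L] [NumberField L] (σ : L →+* ℂ) (x : (Fin p → ℕ) → Fin (N + 1) → L)
        (hx : ∀ n, (fun j => σ (x n j)) ≠ 0) (f : (Fin p → ℂ) → ℙ ℂ (Fin (N + 1) → ℂ)),
        Holo {z | ∀ i, 0 < (z i).re} f → (∀ z : Fin p → ℂ, (∀ i, 0 < (z i).re) → f z ∈ Zeros F) →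
        (∀ᶠ n in cofinite, f (fun i => (n i : ℂ) + 1) = Projectivization.mk ℂ _ (hx n)) →
        DimAtLeast m σ x →
        ∃ᶠ n in cofinite,
          ε * ((Finset.univ.sup n + 1 : ℕ) : ℝ) ^ (1 - p / m : ℝ) ≤ Height.logHeight (x n) := by
  refine ⟨fun θ δ r hθ hδ hr => ?_, fun p hp => ?_⟩
  · obtain ⟨ε, hε, h⟩ := Pool.Agent.H434.Disc.seq_main hF hX hθ hδ hr
    refine ⟨ε, hε, fun L _ _ σ x hx hdisc hdim => h L σ x hx hdisc fun n => ?_⟩
    obtain ⟨i, hi⟩ := hdim {k | k < n} (Set.finite_lt_nat n)
    refine ⟨i, fun Q d hQ hQ0 => ?_⟩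
    obtain ⟨k, hk, hne⟩ := hi Q d hQ hQ0
    exact ⟨k, not_lt.1 hk, hne⟩
  · obtain ⟨ε, hε, h⟩ := Pool.Agent.H434.Disc.poly_main hF hX hp
    exact ⟨ε, hε, fun L _ _ σ x hx f hf hfF hfx hdim => h L σ x hx f hf hfF hfx hdim⟩

end Pool.Agent.Results.MP_627a61_nt.PointsOnDiscs
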