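import Mathlib
import Pool.Agent.H455.RP5

set_option autoImplicit false

/-!
# MP_627a61_nt: rational points of projective varieties above sparse points of projective space

Every projective variety `X` over `ℚ` of dimension `n` has finite morphisms to the projective space
of dimension `n`, given by linear projections: we write the points of `X` as `(x : y)`, where `x` has
`n + 1` coordinates and every one of the `m` coordinates `y_j` is a root of `F j (x, T)` for a form
`F j` with integral coefficients in which a power of `T` occurs.

Let `S` be a finite set of primes. We consider the points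
`x = u 0 * V 0 + u 1 * V 1 + ... + u r * V r` of the projective space, where the `u i` are positive
integers composed of the primes in `S` such that the first one dominates, `u i ≤ (u 0) ^ (1 - η)` for
`i ≠ 0`, the `V i` are integral vectors with coordinates of absolute value at most `M` for `i ≠ 0`,
and `V 0 = V₀` is a fixed point outside the branch locus: the polynomials `F j (V₀, T)` have no
multiple roots.

For given forms `F j`, `V₀`, `S`, `r`, `η`, and for given `d` and `e` there is ONE constant `C` such
that, for ALL `X` given by `e` forms `Φ i` of degree at most `d` with integral coefficients of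
absolute value at most `M`, every rational point `(x : y)` of `X` above a sparse point `x` with
`F j (x, y_j) = 0` for all `j` (these are all the rational points of `X` above sparse points if the
forms `F j (x, y_j)` vanish on `X`) has a height of at most `(2 M) ^ C` or is on the image in `X` of
a nonconstant map of the projective line over `ℚ` of degree at most `C`.

If `X` is Kobayashi hyperbolic then it does not contain rational curves. So all rational points above
sparse points have a height of at most `(2 M) ^ C`, in particular for given `M` they are finite in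
number, as the conjecture of Lang predicts. There are no assumptions on the Albanese variety of `X`
(for example, `X` may be a hypersurface).

The proof: Newton iteration for the `y_j` at `V₀` in the quotients of the `u i V i` (all `y_j` are
approximated by sums of boundedly many `S`-units, so they are such sums, with moving coefficients, by
the subspace theorem), and the uniform height inequality for the points of projective varieties which
are sums of `S`-units; the points of small height are in the fibre above `V₀`.
-/

namespace Pool.Agent.Results.MP_627a61_nt.RationalAboveSparsePoints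

open MvPolynomial

/-- The polynomial `F (ρ, T)` in `T`. The variable `T` of `F` has the index `none`. -/
noncomputable def fibre {n : ℕ} (F : MvPolynomial (Option (Fin n)) ℤ) (ρ : Fin n → ℤ) :
    Polynomial ℚ :=
  aeval (fun o : Option (Fin n) => o.elim Polynomial.X fun k => Polynomial.C (ρ k : ℚ)) F

/-- `x = ∑ u i * V i`, where the `u i` are positive integers with all prime factors in `S`, the
first one dominates, `V 0 = V₀`, and the coordinates of the other `V i` are of absolute value at most
`M`. -/
structure Sparse {n r : ℕ} (S : Finset ℕ) (η M : ℝ) (V₀ : Fin n → ℤ)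
    (V : Fin (r + 1) → Fin n → ℤ) (u : Fin (r + 1) → ℕ) (x : Fin n → ℤ) : Prop where
  smooth : ∀ i, u i ≠ 0 ∧ (u i).primeFactors ⊆ S
  dominating : ∀ i, i ≠ 0 → (u i : ℝ) ≤ (u 0 : ℝ) ^ (1 - η)
  first : V 0 = V₀
  bounded : ∀ i, i ≠ 0 → ∀ k, |(V i k : ℝ)| ≤ M
  eq : ∀ k, x k = ∑ i, V i k * (u i : ℤ)

/-- The height of the point with the homogeneous coordinates `z` is at most `B`: there are integral
coordinates of absolute value at most `B`. -/
def HeightLE {ι : Type} (B : ℝ) (z : ι → ℚ) : Prop :=
  ∃ s : ℚ, s ≠ 0 ∧ ∀ a, ∃ k : ℤ, s * z a = k ∧ |(k : ℝ)| ≤ B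

/-- The point with the parameter `t` of the curve with the coefficients `c k`, `0 ≤ k ≤ E`. -/
noncomputable def curvePoint {ι : Type} (E : ℕ) (c : ℕ → ι → ℚ) (t : ℚ) : ι → ℚ :=
  fun a => ∑ k ∈ Finset.range (E + 1), t ^ k * c k a

/-- The point `z` is on the image of a map of the projective line of degree at most `E`, which is
contained in the variety `Φ = 0` and is not constant. -/
def OnRationalCurve {ι : Type} {e : ℕ} (Φ : Fin e → MvPolynomial ι ℤ) (E : ℕ) (z : ι → ℚ) : Prop :=
  ∃ c : ℕ → ι → ℚ,
    (∀ t : ℚ, ∀ i, aeval (curvePoint E c t) (Φ i) = 0) ∧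
    curvePoint E c 1 = z ∧ ∃ t : ℚ, ∀ s : ℚ, curvePoint E c t ≠ fun a => s * z a

/-- **Main theorem.** -/
theorem result {n m : ℕ} (F : Fin m → MvPolynomial (Option (Fin (n + 1))) ℤ) (D : Fin m → ℕ)
    (hF : ∀ j, (F j).IsHomogeneous (D j))
    (hfinite : ∀ j, (F j).coeff (Finsupp.single none (D j)) ≠ 0)
    (V₀ : Fin (n + 1) → ℤ) (hV₀ : V₀ ≠ 0) (hunramified : ∀ j, Squarefree (fibre (F j) V₀))
    (e d r : ℕ) (S : Finset ℕ) (η : ℝ) (hη : 0 < η) :
    ∃ C : ℕ, ∀ (M : ℝ) (Φ : Fin e → MvPolynomial (Fin (n + 1) ⊕ Fin m) ℤ), 1 ≤ M →
      (∀ i, ∃ k, k ≤ d ∧ (Φ i).IsHomogeneous k) →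
      (∀ i α, |(((Φ i).coeff α : ℤ) : ℝ)| ≤ M) →
      ∀ (V : Fin (r + 1) → Fin (n + 1) → ℤ) (u : Fin (r + 1) → ℕ) (x : Fin (n + 1) → ℤ)
        (y : Fin m → ℚ), Sparse S η M V₀ V u x →
      (∀ j, aeval (fun o : Option (Fin (n + 1)) => o.elim (y j) fun k => (x k : ℚ)) (F j) = 0) →
      (∀ i, aeval (Sum.elim (fun k => (x k : ℚ)) y) (Φ i) = 0) →
      HeightLE ((2 * M) ^ C) (Sum.elim (fun k => (x k : ℚ)) y) ∨
        OnRationalCurve Φ C (Sum.elim (fun k => (x k : ℚ)) y) := by
  have hSp : ∀ p ∈ S.filter Nat.Prime, p.Prime := fun p hp => (Finset.mem_filter.1 hp).2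
  obtain ⟨X⟩ := Pool.Agent.H455.RP.chg_exists D hF hfinite hV₀ hunramified
  obtain ⟨C, hC⟩ := Pool.Agent.H455.RP.rat_main (n := n) (m := m) (e := e) (d := d) (r := r)
    (S := S.filter Nat.Prime) hη hSp X fun j => (hunramified j).ne_zero
  refine ⟨C, fun M Φ hM hΦh hΦc V u x y hsp hxy hΦz => ?_⟩
  exact hC
    { M := M
      hM := hM
      Φ := Φ
      hΦh := hΦh
      hΦc := hΦc
      V := V
      hV0 := hsp.first
      hV := hsp.bounded
      u := u
      hu := fun i => ⟨(hsp.smooth i).1, fun p hp => Finset.mem_filter.2
        ⟨(hsp.smooth i).2 hp, Nat.prime_of_mem_primeFactors hp⟩⟩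
      hdom := hsp.dominating
      x := x
      hx := hsp.eq
      y := y
      hxy := hxy
      hΦz := hΦz }

end Pool.Agent.Results.MP_627a61_nt.RationalAboveSparsePoints
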