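import Mathlib
import Pool.Agent.H434.D6

/-!
MP_627a61_nt, Q1: rational points of hyperbolic projective varieties on the images of polydiscs.

Let `X` be a complex projective variety without nonconstant entire curves (for a complete variety over a
number field `k` this is the hypothesis of Q1; one can take `L ⊇ k` below). Let `U` be an open subset of
`ℂ ^ p`, for instance the unit polydisc, and `K` a compact subset of `U`. We consider ALL holomorphic
maps `f : U → X` such that the Zariski closure of `f(U)` has dimension at least `m > p`, and the points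
of `X(L)`, `L` any number field of degree at most `κ`, which are in `f(K)`. There is one constant `C`,
depending only on `X`, `U`, `K`, `m` and `κ`, such that for all `f`, all `L` and all `h` the points of
logarithmic height at most `h` lie on a hypersurface over `L` of degree at most
`C (1 + h) ^ (p / (m - p))`, which does not contain `f(U)`.

For a fixed map `f` this is the determinant method of Bombieri and Pila. The point is the uniformity in
`f`, which is false for instance for `X = ℙ²` (there are holomorphic maps from the disc whose images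
contain any given finite set of rational points).

Proof. By Brody's theorem (library) the discs in `X` are equicontinuous, so there is a `δ` such that for
every holomorphic map of the unit polydisc to `X` the image of the polydisc of radius `δ` is in one
chart, with coordinates bounded by `2 N + 2`. The interpolation determinants of the monomials are small
(they vanish to a high order, along lines), and not too small if they are not zero, by the product
formula.
-/

set_option autoImplicit false

open MvPolynomial
open scoped LinearAlgebra.Projectivization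

namespace Pool.Agent.Results.MP_627a61_nt.UniformForHolomorphicMaps

/-- `f` is a holomorphic map from the open set `U` to projective `N`-space: near every point of `U` it
is given by a nowhere vanishing vector of analytic functions. -/
def Holo {E : Type} [NormedAddCommGroup E] [NormedSpace ℂ E] {N : ℕ} (U : Set E)
    (f : E → ℙ ℂ (Fin (N + 1) → ℂ)) : Prop :=
  ∀ t ∈ U, ∃ (W : Set E) (g : E → Fin (N + 1) → ℂ), IsOpen W ∧ t ∈ W ∧ AnalyticOnNhd ℂ g W ∧
    ∀ t' ∈ W, ∃ h : g t' ≠ 0, f t' = Projectivization.mk ℂ (g t') h

/-- The projective algebraic set given by the forms in `F`. -/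
def Zeros {N : ℕ} (F : Set (MvPolynomial (Fin (N + 1)) ℂ)) : Set (ℙ ℂ (Fin (N + 1) → ℂ)) :=
  {P | ∀ G ∈ F, eval P.rep G = 0}

/-- All holomorphic maps from `ℂ` to `X` are constant. -/
def BrodyHyperbolic {N : ℕ} (X : Set (ℙ ℂ (Fin (N + 1) → ℂ))) : Prop :=
  ∀ g : ℂ → ℙ ℂ (Fin (N + 1) → ℂ), Holo Set.univ g → (∀ t, g t ∈ X) → ∀ t, g t = g 0

/-- The Zariski closure of `f(U)` has dimension at least `m`: some `m + 1` of the homogeneous
coordinates satisfy no nontrivial homogeneous equation on `f(U)`. -/
def DimAtLeast {E : Type} {N : ℕ} (m : ℕ) (f : E → ℙ ℂ (Fin (N + 1) → ℂ)) (U : Set E) : Prop :=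
  ∃ i : Fin (m + 1) → Fin (N + 1), ∀ (Q : MvPolynomial (Fin (m + 1)) ℂ) (d : ℕ),
    Q.IsHomogeneous d → Q ≠ 0 → ∃ z ∈ U, eval (fun l => (f z).rep (i l)) Q ≠ 0

/-- **Rational points on polydiscs in hyperbolic varieties, uniformly in the polydisc.** Here
`Height.logHeight x` is the logarithmic Weil height, relative to `L`, of the point of projective space
with the homogeneous coordinates `x`. -/
theorem result {N : ℕ} (F : Set (MvPolynomial (Fin (N + 1)) ℂ))
    (hF : ∀ G ∈ F, ∃ e, G.IsHomogeneous e) (hX : BrodyHyperbolic (Zeros F)) (p m κ : ℕ)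
    (hpm : p < m) (U K : Set (Fin p → ℂ)) (hU : IsOpen U) (hK : IsCompact K) (hKU : K ⊆ U) :
    ∃ C : ℝ, ∀ f : (Fin p → ℂ) → ℙ ℂ (Fin (N + 1) → ℂ), Holo U f → (∀ z ∈ U, f z ∈ Zeros F) →
      DimAtLeast m f U → ∀ (L : Type) [Field L] [NumberField L] (σ : L →+* ℂ),
      Module.finrank ℚ L ≤ κ → ∀ h : ℝ, 0 ≤ h →
      ∃ (d : ℕ) (G : MvPolynomial (Fin (N + 1)) L), G.IsHomogeneous d ∧
        (d : ℝ) ≤ C * (1 + h) ^ ((p : ℝ) / ((m : ℝ) - p)) ∧
        (∃ z ∈ U, eval (f z).rep (map σ G) ≠ 0) ∧
        ∀ (x : Fin (N + 1) → L) (hx : (fun j => σ (x j)) ≠ 0), Height.logHeight x ≤ h →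
          (∃ z ∈ K, f z = Projectivization.mk ℂ (fun j => σ (x j)) hx) → eval x G = 0 := by
  obtain ⟨C, hC⟩ := Pool.Agent.H434.Disc.main hF hX hpm κ hU hK hKU
  refine ⟨C, fun f hf hfF hd L _ _ σ hκ h hh => ?_⟩
  obtain ⟨d, G, h1, h2, h3, h4⟩ := hC f hf hfF hd L σ hκ h hh
  rw [Nat.cast_sub hpm.le] at h2
  exact ⟨d, G, h1, h2, h3, h4⟩

end Pool.Agent.Results.MP_627a61_nt.UniformForHolomorphicMaps
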